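import Pool.Agent.Helper12.D4.Ai
import Pool.Agent.Helper37.SD.Wt

/-!
# Project D4: weights, and the degrees of functions vanishing on prime divisors
-/

set_option autoImplicit false

namespace Pool.Agent.Helper94.D4

open Module Filter Topology Pool.Agent.Helper37.SD Pool.Agent.Helper20.TS Pool.Agent.Helper88.D4
open Pool.Agent.Helper12.D4 (der_sum)

variable {K : Type} [Field K] [Algebra ℂ K] {r : ℕ} {H : Fin r → Derivation ℂ K K}

/-! ## weight vectors -/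

theorem isW_mul {m m' : Fin r → ℤ} {x y : K} (hx : IsW H m x) (hy : IsW H m' y) :
    IsW H (m + m') (x * y) := by
  intro i
  rw [Derivation.leibniz, hx i, hy i, Pi.add_apply]
  simp only [smul_eq_mul, Algebra.smul_def, map_intCast]
  push_cast
  ring

theorem isW_one : IsW H (0 : Fin r → ℤ) (1 : K) := by
  intro i
  rw [Derivation.map_one_eq_zero, Pi.zero_apply, Int.cast_zero, zero_smul]

theorem isW_pow {m : Fin r → ℤ} {x : K} (hx : IsW H m x) (n : ℕ) : IsW H (n • m) (x ^ n) := by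
  induction n with
  | zero =>
    rw [pow_zero, zero_smul]
    exact isW_one
  | succ n ih =>
    rw [pow_succ, succ_nsmul]
    exact isW_mul ih hx

theorem isW_inv {m : Fin r → ℤ} {x : K} (hx0 : x ≠ 0) (hx : IsW H m x) :
    IsW H (-m) x⁻¹ := by
  intro i
  have h1 := Pool.Agent.Helper12.D4.quot (H i) 1 x hx0
  rw [Derivation.map_one_eq_zero, hx i, one_div] at h1
  rw [h1, Pi.neg_apply]
  simp only [Algebra.smul_def, map_intCast]
  push_cast
  field_simp
  ring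

theorem isW_div {m m' : Fin r → ℤ} {x y : K} (hx : IsW H m x) (hy0 : y ≠ 0) (hy : IsW H m' y) :
    IsW H (m - m') (x / y) := by
  rw [div_eq_mul_inv, sub_eq_add_neg]
  exact isW_mul hx (isW_inv hy0 hy)

variable {R : Subalgebra ℂ K} {ξ : Derivation ℂ K K} {c : Fin r → ℝ}

theorem tor_pres (hT : Tor R ξ H c) (i : Fin r) : Pres R (H i) := by
  intro x hx
  have h1 : Submodule.span ℂ {y | y ∈ R ∧ ∃ m : Fin r → ℤ, IsW H m y} ≤
      (Subalgebra.toSubmodule R).comap ((H i : Derivation ℂ K K) : K →ₗ[ℂ] K) := by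
    rw [Submodule.span_le]
    rintro y ⟨hy, m, hm⟩
    change H i y ∈ R
    rw [hm i]
    exact R.smul_mem hy _
  exact h1 (hT.span x hx)

theorem xi_of_isW (hT : Tor R ξ H c) {m : Fin r → ℤ} {y : K} (hy : IsW H m y) :
    ξ y = ((∑ i, c i * m i : ℝ) : ℂ) • y := by
  rw [hT.xi, der_sum]
  push_cast
  rw [Finset.sum_smul]
  refine Finset.sum_congr rfl fun i _ => ?_
  rw [Derivation.smul_apply, hy i, smul_smul]

theorem eig_nonneg (hC : IsCone R ξ) {x : K} (hx : x ∈ R) (hx0 : x ≠ 0) {κ : ℝ}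
    (h : ξ x = (κ : ℂ) • x) : 0 ≤ κ := by
  obtain ⟨f, hf⟩ := exists_dec (hC.span x hx)
  have h1 := hf.unique (isDec_single (A := (ξ : K →ₗ[ℂ] K)) (y := x) (a := κ) h)
  refine hf.prop κ ?_
  rw [h1, Finsupp.single_eq_same]
  exact hx0

/-- the degree is additive -/
theorem dg_add (c : Fin r → ℝ) (m m' : Fin r → ℤ) :
    ∑ i, c i * ((m + m') i : ℤ) = ∑ i, c i * m i + ∑ i, c i * m' i := by
  rw [← Finset.sum_add_distrib]
  refine Finset.sum_congr rfl fun i _ => ?_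
  rw [Pi.add_apply]
  push_cast
  ring

theorem dg_sub (c : Fin r → ℝ) (m m' : Fin r → ℤ) :
    ∑ i, c i * ((m - m') i : ℤ) = ∑ i, c i * m i - ∑ i, c i * m' i := by
  rw [← Finset.sum_sub_distrib]
  refine Finset.sum_congr rfl fun i _ => ?_
  rw [Pi.sub_apply]
  push_cast
  ring

theorem dg_neg (c : Fin r → ℝ) (m : Fin r → ℤ) :
    ∑ i, c i * ((-m) i : ℤ) = -∑ i, c i * m i := by
  rw [← Finset.sum_neg_distrib]
  refine Finset.sum_congr rfl fun i _ => ?_
  rw [Pi.neg_apply]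
  push_cast
  ring

theorem dg_nsmul (c : Fin r → ℝ) (n : ℕ) (m : Fin r → ℤ) :
    ∑ i, c i * ((n • m) i : ℤ) = n * ∑ i, c i * m i := by
  rw [Finset.mul_sum]
  refine Finset.sum_congr rfl fun i _ => ?_
  rw [Pi.smul_apply]
  push_cast [nsmul_eq_mul]
  ring

/-! ## prime divisors -/

variable {J : Bra K} {v : RVal K} {a V : ℝ}

/-- the equation of a homogeneous prime divisor -/
theorem divF (hE : S_EX1) (hT0 : S_T0) (hL : S_LDpd) (hHF : S_HF) (hC : Cone4 R ξ J a)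
    (hM : IsMin R ξ J v a V) (hQ : QFac R) (hT : Tor R ξ H c) {u : RVal K} (hu : PDiv R u)
    {x : K} {m : Fin r → ℤ} (hx : x ∈ R) (hx0 : x ≠ 0) (hW : IsW H m x) (hpos : 0 < u.val x) :
    ∃ (F : K) (l : ℕ) (m' : Fin r → ℤ), DivMul R u F ∧ 0 < l ∧ u.val F = l ∧ IsW H m' F ∧
      a * l ≤ 4 * ∑ i, c i * m' i ∧
      ∀ e : ℕ, (e : ℝ) ≤ u.val x → x ^ l / F ^ e ∈ R ∧ l * ∑ i, c i * m i ≥ e * ∑ i, c i * m' i := by
  obtain ⟨F, hF, hF0, hFu, hF1⟩ := hQ u hu
  have hD : DivMul R u F := ⟨hF, hF0, hFu, hF1⟩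
  obtain ⟨m', hm'⟩ := hHF K R ξ r H c hC.toIsCone hC.normal hT u hu x m hx hx0 hW hpos F hD
  obtain ⟨n, hn⟩ := hu.int F hF0
  have hn0 : 0 < n := by
    have : (0 : ℝ) < n := by rw [← hn]; exact hFu
    exact_mod_cast this
  obtain ⟨l, rfl⟩ := Int.eq_ofNat_of_zero_le hn0.le
  have hl : 0 < l := by exact_mod_cast hn0
  have hul : u.val F = l := by rw [hn]; push_cast; rfl
  have hR : ∀ e : ℕ, (e : ℝ) ≤ u.val x → x ^ l / F ^ e ∈ R := by
    intro e he
    by_contra hcon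
    obtain ⟨u', hu', hneg⟩ := hE K R hC.frac hC.fg hC.normal _ hcon
    rw [u'.val_div (pow_ne_zero _ hx0) (pow_ne_zero _ hF0), u'.val_pow hx0, u'.val_pow hF0] at hneg
    have h1 : 0 ≤ u'.val x := hu'.nonneg x hx hx0
    have h2 : 0 ≤ (l : ℝ) * u'.val x := by positivity
    have h3 : 0 < u'.val F := by
      by_contra h4
      have h5 : (e : ℝ) * u'.val F ≤ 0 := mul_nonpos_of_nonneg_of_nonpos (by positivity) (not_lt.1 h4)
      linarith
    have h6 := hF1 u' hu' h3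
    rw [h6 x hx0, h6 F hF0, hul] at hneg
    have h7 : (l : ℝ) * u.val x ≥ l * e := by
      have : (0 : ℝ) ≤ l := by positivity
      exact mul_le_mul_of_nonneg_left he this
    nlinarith
  refine ⟨F, l, m', hD, hl, hul, hm', ?_, fun e he => ⟨hR e he, ?_⟩⟩
  · have h1 := (hT0 K R ξ J v a V hC hM u 1 hu.nonneg (hL K R ξ J a hC u hu)).2 F _ hF hF0
      (xi_of_isW hT hm')
    rw [hul] at h1
    linarith
  · have h1 : IsW H (l • m - e • m') (x ^ l / F ^ e) :=
      isW_div (isW_pow hW l) (pow_ne_zero _ hF0) (isW_pow hm' e)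
    have h2 := eig_nonneg hC.toIsCone (hR e he)
      (div_ne_zero (pow_ne_zero _ hx0) (pow_ne_zero _ hF0)) (xi_of_isW hT h1)
    rw [dg_sub, dg_nsmul, dg_nsmul] at h2
    linarith

/-- the degree of a function is at least `a / 4` times its order along a prime divisor -/
theorem deg_ge (hE : S_EX1) (hT0 : S_T0) (hL : S_LDpd) (hHF : S_HF) (hC : Cone4 R ξ J a)
    (hM : IsMin R ξ J v a V) (hQ : QFac R) (hT : Tor R ξ H c) {u : RVal K} (hu : PDiv R u)
    {x : K} {m : Fin r → ℤ} (hx : x ∈ R) (hx0 : x ≠ 0) (hW : IsW H m x) (e : ℕ)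
    (he : (e : ℝ) ≤ u.val x) : e * a ≤ 4 * ∑ i, c i * m i := by
  rcases Nat.eq_zero_or_pos e with rfl | hpos
  · have h1 := eig_nonneg hC.toIsCone hx hx0 (xi_of_isW hT hW)
    push_cast
    linarith
  · have h0 : (0 : ℝ) < e := by exact_mod_cast hpos
    obtain ⟨F, l, m', hD, hl, hul, hm', h1, h2⟩ := divF hE hT0 hL hHF hC hM hQ hT hu hx hx0 hW
      (lt_of_lt_of_le h0 he)
    have h3 := (h2 e he).2
    have hl0 : (0 : ℝ) < l := by exact_mod_cast hl
    have h4 : (l : ℝ) * (e * a) ≤ l * (4 * ∑ i, c i * m i) := by nlinarith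
    exact le_of_mul_le_mul_left h4 hl0

/-- two prime divisors, or a multiple one: the degree is at least `a / 2` -/
theorem two_div (hE : S_EX1) (hT0 : S_T0) (hL : S_LDpd) (hHF : S_HF) (hC : Cone4 R ξ J a)
    (hM : IsMin R ξ J v a V) (hQ : QFac R) (hT : Tor R ξ H c) {x : K} {m : Fin r → ℤ}
    (hx : x ∈ R) (hx0 : x ≠ 0) (hW : IsW H m x) (hk : ∑ i, c i * m i ≠ 0)
    (hlt : 2 * ∑ i, c i * m i < a) :
    ∃ u, PDiv R u ∧ u.val x = 1 ∧ ∀ u', PDiv R u' → 0 < u'.val x → ∀ y, y ≠ 0 →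
      u'.val y = u.val y := by
  have hk0 : 0 < ∑ i, c i * m i :=
    lt_of_le_of_ne (eig_nonneg hC.toIsCone hx hx0 (xi_of_isW hT hW)) (Ne.symm hk)
  have h1 : x⁻¹ ∉ R := by
    intro h2
    have h3 := eig_nonneg hC.toIsCone h2 (inv_ne_zero hx0) (xi_of_isW hT (isW_inv hx0 hW))
    rw [dg_neg] at h3
    linarith
  obtain ⟨u, hu, hneg⟩ := hE K R hC.frac hC.fg hC.normal _ h1
  rw [u.val_inv hx0] at hneg
  obtain ⟨n, hn⟩ := hu.int x hx0
  have hn0 : (0 : ℝ) < n := by rw [← hn]; linarith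
  have hn1 : 0 < n := by exact_mod_cast hn0
  obtain ⟨e, rfl⟩ := Int.eq_ofNat_of_zero_le hn1.le
  have hue : u.val x = e := by rw [hn]; push_cast; rfl
  have he1 : 1 ≤ e := by exact_mod_cast hn1
  have he2 : e < 2 := by
    by_contra hcon
    have h2 : ((2 : ℕ) : ℝ) ≤ u.val x := by
      rw [hue]
      exact_mod_cast not_lt.1 hcon
    have h3 := deg_ge hE hT0 hL hHF hC hM hQ hT hu hx hx0 hW 2 h2
    push_cast at h3
    linarith
  have he : e = 1 := by omega
  subst he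
  push_cast at hue
  refine ⟨u, hu, hue, fun u' hu' hpos => ?_⟩
  by_contra hcon
  obtain ⟨F, l, m', hD, hl, hul, hm', h2, h3⟩ := divF hE hT0 hL hHF hC hM hQ hT hu hx hx0 hW
    (by rw [hue]; norm_num)
  have h4 : u'.val F = 0 := by
    refine le_antisymm (not_lt.1 fun h5 => hcon fun y hy => hD.2.2.2 u' hu' h5 y hy)
      (hu'.nonneg F hD.1 hD.2.1)
  have h5 := h3 1 (by rw [hue]; norm_num)
  obtain ⟨h6, h7⟩ := h5
  have hl0 : (0 : ℝ) < l := by exact_mod_cast hl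
  have hval : (l : ℝ) ≤ u'.val (x ^ l / F ^ 1) := by
    rw [u'.val_div (pow_ne_zero _ hx0) (pow_ne_zero _ hD.2.1), u'.val_pow hx0, u'.val_pow hD.2.1,
      h4, mul_zero, sub_zero]
    obtain ⟨n', hn'⟩ := hu'.int x hx0
    have h8 : (0 : ℝ) < n' := by rw [← hn']; exact hpos
    have h9 : (1 : ℤ) ≤ n' := by
      have : 0 < n' := by exact_mod_cast h8
      omega
    have h10 : (1 : ℝ) ≤ u'.val x := by rw [hn']; exact_mod_cast h9
    nlinarith
  have h8 := deg_ge hE hT0 hL hHF hC hM hQ hT hu' h6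
    (div_ne_zero (pow_ne_zero _ hx0) (pow_ne_zero _ hD.2.1))
    (isW_div (isW_pow hW l) (pow_ne_zero _ hD.2.1) (isW_pow hm' 1)) l hval
  rw [dg_sub, dg_nsmul, dg_nsmul] at h8
  push_cast at h8
  have h9 : (l : ℝ) * a ≤ l * (2 * ∑ i, c i * m i) := by nlinarith
  have h10 := le_of_mul_le_mul_left h9 hl0
  linarith

end Pool.Agent.Helper94.D4
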