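import Pool.Agent.Helper94.D4.Res
import Pool.Agent.Helper34.D4.AnEnd
import Pool.Agent.Helper88.D4.Stmts3

/-!
# Project D4: case A in its three forms
-/

set_option autoImplicit false

namespace Pool.Agent.Helper94.D4

open Module Filter Topology Pool.Agent.Helper37.SD Pool.Agent.Helper20.TS Pool.Agent.Helper88.D4

/-- case A, Q-factorial -/
theorem s_A (hT0 : S_T0) (hLD : S_LDpd) (hUN : S_UN) (hCL : S_CL) (hREG : S_REG) : S_A := by
  intro K _ _ R ξ J v a V r H c hC hM hQ hT χ α hA hk ⟨j, hj⟩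
  by_contra hcon
  obtain ⟨s, η, e, hs, hs0, hW, hk0, hred, hcl, hinv, hcst, hxi, hne, hres, hext⟩ :=
    front hT0 hLD hUN hCL hREG hC hM hT hA hk j hj (not_le.1 hcon)
  refine hcon (Pool.Agent.Helper34.D4.an_core hT0 hLD hREG hC hM hT hs hs0 hW hk0 hred η hinv hcst
    hxi hne e hres ?_)
  by_cases hall : ∀ u u', PDiv R u → PDiv R u' → u.val s = 1 → u'.val s = 1 → e u = e u'
  · exact Or.inl hall
  · right
    simp only [not_forall] at hall
    obtain ⟨u, u', hu, hu', hus, hus', hne'⟩ := hall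
    obtain ⟨F, hF, hF0, hFu, hF1⟩ := hQ u hu
    refine ⟨F, hF0, fun w hw hws => ?_, u, u', hu, hu', hus, hus', ?_⟩
    · refine le_antisymm (not_lt.1 fun h => ?_) (hw.nonneg F hF hF0)
      have h1 := hF1 w hw h s hs0
      rw [hws, hus] at h1
      exact zero_ne_one h1
    · intro heq
      exact hne' (hext u u' (hF1 u' hu' (by rw [← heq]; exact hFu)))

/-- case A with (TOR) -/
theorem s_An (hT0 : S_T0) (hLD : S_LDpd) (hUN : S_UN) (hCL : S_CL) (hREG : S_REG) : S_An := by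
  intro K _ _ R ξ J v a V r H c hC hM hQ hT χ α hA hk ⟨j, hj⟩
  by_contra hcon
  obtain ⟨s, η, e, hs, hs0, hW, hk0, hred, hcl, hinv, hcst, hxi, hne, hres, hext⟩ :=
    front hT0 hLD hUN hCL hREG hC hM hT hA hk j hj (not_le.1 hcon)
  obtain ⟨p, φ, γ, h1, h2, h3⟩ := hQ η s e hcl hs hs0 hred hres
  exact hcon (Pool.Agent.Helper34.D4.an_end hT0 hLD hREG hC hM hT hs hs0 hW hk0 hred η hinv hcst
    hxi hne e hres φ γ h1 h2 h3)

/-- case A with finitely generated Cox algebras -/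
theorem s_Ac (hT0 : S_T0) (hLD : S_LDpd) (hUN : S_UN) (hCL : S_CL) (hREG : S_REG)
    (hRES : S_RES) : S_Ac := by
  intro K _ _ R ξ J v a V r H c hC hM hQ hT χ α hA hk ⟨j, hj⟩
  by_contra hcon
  obtain ⟨s, η, e, hs, hs0, hW, hk0, hred, hcl, hinv, hcst, hxi, hne, hres, hext⟩ :=
    front hT0 hLD hUN hCL hREG hC hM hT hA hk j hj (not_le.1 hcon)
  exact hcon (Pool.Agent.Helper34.D4.an_core hT0 hLD hREG hC hM hT hs hs0 hW hk0 hred η hinv hcst
    hxi hne e hres (hRES K R ξ J a r H c hC hQ hT s χ hs hs0 hW hred η hinv hcst e hres))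

end Pool.Agent.Helper94.D4
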