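import Pool.Agent.Helper94.D4.Wts
import Pool.Agent.Helper37.SD.Frame

/-!
# Project D4, case A: the residue
-/

set_option autoImplicit false

namespace Pool.Agent.Helper94.D4

open Module Filter Topology Pool.Agent.Helper37.SD Pool.Agent.Helper20.TS Pool.Agent.Helper88.D4
open Pool.Agent.Helper12.D4 (der_sum l1 l2 l3 z23 dfr_apply dfr_sum brk_apply s_AI quot)

variable {K : Type} [Field K] [Algebra ℂ K] {r : ℕ} {H : Fin r → Derivation ℂ K K}
  {R : Subalgebra ℂ K} {ξ : Derivation ℂ K K} {c : Fin r → ℝ} {J : Bra K} {a : ℝ} {u : RVal K}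

/-! ## the valuation ring of a prime divisor -/

theorem ge0_of_mem (hu : PDiv R u) {x : K} (hx : x ∈ R) : u.Ge 0 x := by
  by_cases h : x = 0
  · exact Or.inl h
  · exact Or.inr (hu.nonneg x hx h)

theorem ge0_mul {x y : K} (hx : u.Ge 0 x) (hy : u.Ge 0 y) : u.Ge 0 (x * y) := by
  have := u.ge_mul hx hy
  rwa [add_zero] at this

theorem ge1_mul {x y : K} (hx : u.Ge 0 x) (hy : u.Ge 1 y) : u.Ge 1 (x * y) := by
  have := u.ge_mul hx hy
  rwa [zero_add] at this

/-- A derivation which maps `R` to the valuation ring preserves the valuation ring. -/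
theorem der_ge (hu : PDiv R u) (D : Derivation ℂ K K) (hD : ∀ x ∈ R, u.Ge 0 (D x)) {x : K}
    (hx : u.Ge 0 x) : u.Ge 0 (D x) := by
  by_cases h0 : x = 0
  · rw [h0, map_zero]
    exact Or.inl rfl
  · obtain ⟨t, ht, ht0, htu, htx⟩ := hu.loc x h0 (hx.resolve_left h0)
    have h1 : D x = (D (t * x) - x * D t) / t := by
      rw [Derivation.leibniz, smul_eq_mul, smul_eq_mul]
      field_simp
      ring
    rw [h1]
    have h2 := u.ge_div (u.ge_sub (hD _ htx) (ge0_mul hx (hD t ht))) ht0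
    rwa [htu, sub_zero] at h2

/-- The bracket preserves the valuation ring. -/
theorem bra_ge (hC : Cone4 R ξ J a) (hu : PDiv R u) {x y z w : K} (hx : u.Ge 0 x)
    (hy : u.Ge 0 y) (hz : u.Ge 0 z) (hw : u.Ge 0 w) : u.Ge 0 (J y z w x) := by
  have h := hC.alt
  have P1 : ∀ y ∈ R, ∀ z ∈ R, ∀ w ∈ R, ∀ x, u.Ge 0 x → u.Ge 0 (J y z w x) :=
    fun y hy z hz w hw x hx =>
      der_ge hu _ (fun x' hx' => ge0_of_mem hu (hC.reg x' hx' y hy z hz w hw)) hx
  have P2 : ∀ z ∈ R, ∀ w ∈ R, ∀ x, u.Ge 0 x → ∀ y, u.Ge 0 y → u.Ge 0 (J y z w x) := by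
    intro z hz w hw x hx y hy
    rw [l1 h]
    refine u.ge_neg (der_ge hu _ (fun y' hy' => ?_) hy)
    rw [l1 h]
    exact u.ge_neg (P1 y' hy' z hz w hw x hx)
  have P3 : ∀ w ∈ R, ∀ x, u.Ge 0 x → ∀ y, u.Ge 0 y → ∀ z, u.Ge 0 z → u.Ge 0 (J y z w x) := by
    intro w hw x hx y hy z hz
    rw [l2 h]
    refine der_ge hu _ (fun z' hz' => ?_) hz
    rw [← l2 h]
    exact P2 z' hz' w hw x hx y hy
  rw [l3 h]
  refine u.ge_neg (der_ge hu _ (fun w' hw' => ?_) hw)
  have h1 := P3 w' hw' x hx y hy z hz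
  rw [l3 h] at h1
  have h2 := u.ge_neg h1
  rwa [neg_neg] at h2

/-! ## the form `α / s` -/

/-- `D ↦ D s` -/
def ev (s : K) : Pool.Agent.Helper88.D4.One K where
  toFun D := D s
  map_add' _ _ := rfl
  map_smul' _ _ := rfl

theorem ev_apply (s : K) (D : Derivation ℂ K K) : ev s D = D s := rfl

variable {χ : Fin r → ℤ} {α : Pool.Agent.Helper88.D4.One K}

theorem isW_s (hT : Tor R ξ H c) (hA : Al R ξ H χ α) (j : Fin r) : IsW H χ (α (H j)) := by
  intro i
  have h1 := hA.wt i (H j)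
  rwa [hT.comm i j, map_zero, sub_zero] at h1

/-- `s dα = ds ∧ α` -/
theorem dOne_s (hA : Al R ξ H χ α) (j : Fin r) (B C : Derivation ℂ K K) :
    α (H j) * dOne α B C = α C * B (α (H j)) - α B * C (α (H j)) := by
  have h1 := hA.int (H j) B C
  have e1 : dOne α (H j) C = (χ j : ℂ) • α C - C (α (H j)) := by
    rw [dOne, ← hA.wt j C]
    ring
  have e2 : dOne α (H j) B = (χ j : ℂ) • α B - B (α (H j)) := by
    rw [dOne, ← hA.wt j B]
    ring
  rw [e1, e2, Algebra.smul_def, Algebra.smul_def] at h1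
  linear_combination h1

/-- the values of `α / s` on the torus are constants -/
theorem quot_cst (hC : Cone4 R ξ J a) (hT : Tor R ξ H c) (hA : Al R ξ H χ α) (j : Fin r)
    (hs0 : α (H j) ≠ 0) (i : Fin r) : Cst (α (H i) / α (H j)) := by
  by_contra hcon
  obtain ⟨x, y, z, hne⟩ := (s_AI K J hC.trdeg hC.alt).2.2 _ hcon
  apply hne
  set D := J x y z with hD
  have h1 := dOne_s hA j (H i) D
  have h2 : dOne α (H i) D = (χ i : ℂ) • α D - D (α (H i)) := by
    rw [dOne, ← hA.wt i D]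
    ring
  rw [h2, isW_s hT hA j i, Algebra.smul_def, Algebra.smul_def] at h1
  have h3 : α (H j) * D (α (H i)) = α (H i) * D (α (H j)) := by linear_combination -h1
  rw [quot D _ _ hs0, h3, sub_self, zero_div]

/-- the residue along a zero of `s` -/
theorem residue (hUN : S_UN) (hCL : S_CL) (hREG : S_REG) (hC : Cone4 R ξ J a)
    (hT : Tor R ξ H c) (hu : PDiv R u) (hA : Al R ξ H χ α) (j : Fin r) (hs0 : α (H j) ≠ 0)
    (hus : u.val (α (H j)) = 1) : ∃ t : ℂ, ∀ D : Derivation ℂ K K, (∀ w ∈ R, u.Ge 0 (D w)) →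
      u.Ge 0 ((α D - algebraMap ℂ K t * D (α (H j))) / α (H j)) := by
  have hJ := hC.alt
  have hsR : α (H j) ∈ R := hA.reg _ (tor_pres hT j)
  have hds := dOne_s hA j
  generalize hsdef : α (H j) = s at *
  obtain ⟨x, hx, y, hy, z, hz, hb0, hbu⟩ := hUN K R ξ J a hC u hu s hs0 hus
  have gs : u.Ge 0 s := ge0_of_mem hu hsR
  have gx : u.Ge 0 x := ge0_of_mem hu hx
  have gy : u.Ge 0 y := ge0_of_mem hu hy
  have gz : u.Ge 0 z := ge0_of_mem hu hz
  set Z : Fin 4 → K := ![s, x, y, z] with hZ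
  have hbrk : brk J Z = J x y z s := rfl
  have hZ0 : brk J Z ≠ 0 := hb0
  generalize hb : J x y z s = b at *
  have gbi : u.Ge 0 b⁻¹ := Or.inr (by rw [u.val_inv hb0, hbu, neg_zero])
  have gb : u.Ge 0 b := Or.inr (by rw [hbu])
  have e0 : dfr J Z 0 = b⁻¹ • J x y z := by rw [dfr, hbrk]; rfl
  have e1 : dfr J Z 1 = -b⁻¹ • J s y z := by rw [dfr, hbrk]; rfl
  have e2 : dfr J Z 2 = b⁻¹ • J s x z := by rw [dfr, hbrk]; rfl
  have e3 : dfr J Z 3 = -b⁻¹ • J s x y := by rw [dfr, hbrk]; rfl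
  have gd : ∀ i, ∀ w, u.Ge 0 w → u.Ge 0 (dfr J Z i w) := by
    intro i w hw
    fin_cases i
    · simp only [Fin.zero_eta]
      rw [e0]
      exact ge0_mul gbi (bra_ge hC hu hw gx gy gz)
    · simp only [Fin.mk_one]
      rw [e1]
      exact ge0_mul (u.ge_neg gbi) (bra_ge hC hu hw gs gy gz)
    · simp only [Fin.reduceFinMk]
      rw [e2]
      exact ge0_mul gbi (bra_ge hC hu hw gs gx gz)
    · simp only [Fin.reduceFinMk]
      rw [e3]
      exact ge0_mul (u.ge_neg gbi) (bra_ge hC hu hw gs gx gy)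
  have hR1 := (hREG K R ξ J a hC α).1 hA.reg
  have ga : ∀ i, u.Ge 0 (α (dfr J Z i)) := by
    intro i
    fin_cases i
    · simp only [Fin.zero_eta]
      rw [e0, map_smul]
      exact ge0_mul gbi (hR1 u hu _ _ _ gx gy gz)
    · simp only [Fin.mk_one]
      rw [e1, map_smul]
      exact ge0_mul (u.ge_neg gbi) (hR1 u hu _ _ _ gs gy gz)
    · simp only [Fin.reduceFinMk]
      rw [e2, map_smul]
      exact ge0_mul gbi (hR1 u hu _ _ _ gs gx gz)
    · simp only [Fin.reduceFinMk]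
      rw [e3, map_smul]
      exact ge0_mul (u.ge_neg gbi) (hR1 u hu _ _ _ gs gx gy)
  have hap := dfr_apply hJ hZ0
  have hcomm : ∀ i k, ⁅dfr J Z i, dfr J Z k⁆ = 0 := by
    intro i k
    rw [dfr_sum hJ hC.trdeg hZ0 ⁅dfr J Z i, dfr J Z k⁆]
    apply Finset.sum_eq_zero
    intro l _
    have : ∀ (D : Derivation ℂ K K) (P : Prop) [Decidable P], D (if P then 1 else 0) = 0 := by
      intro D P _
      split_ifs
      · exact D.map_one_eq_zero
      · exact map_zero D
    rw [Derivation.commutator_apply, hap, hap, this, this, sub_zero, zero_smul]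
  have hd0s : dfr J Z 0 s = 1 := by
    have := hap 0 0
    simpa [hZ] using this
  have hdis : ∀ i : Fin 4, i ≠ 0 → dfr J Z i s = 0 := by
    intro i hi
    have := hap i 0
    rw [if_neg hi] at this
    simpa [hZ] using this
  -- the components of `α`
  set c0 := α (dfr J Z 0) with hc0
  have hai : ∀ i : Fin 4, i ≠ 0 →
      α (dfr J Z i) = s * (dfr J Z 0 (α (dfr J Z i)) - dfr J Z i c0) := by
    intro i hi
    have h1 := hds (dfr J Z 0) (dfr J Z i)
    rw [hd0s, hdis i hi, mul_one, mul_zero, sub_zero, dOne, hcomm, map_zero, sub_zero] at h1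
    exact h1.symm
  have hgb : ∀ i : Fin 4, i ≠ 0 → u.Ge 0 (dfr J Z 0 (α (dfr J Z i)) - dfr J Z i c0) :=
    fun i _ => u.ge_sub (gd 0 _ (ga i)) (gd i _ (ga 0))
  have gs1 : u.Ge 1 s := Or.inr (by rw [hus])
  have hdc : ∀ i : Fin 4, i ≠ 0 → u.Ge 1 (dfr J Z i c0) := by
    intro i hi
    have h1 := hai i hi
    have h2 : dfr J Z 0 (α (dfr J Z i)) = s * dfr J Z 0
        (dfr J Z 0 (α (dfr J Z i)) - dfr J Z i c0) +
          (dfr J Z 0 (α (dfr J Z i)) - dfr J Z i c0) * 1 := by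
      conv_lhs => rw [h1]
      rw [Derivation.leibniz, hd0s, smul_eq_mul, smul_eq_mul]
    have h3 : dfr J Z i c0 = dfr J Z 0
        (dfr J Z 0 (α (dfr J Z i)) - dfr J Z i c0) * s := by linear_combination h2
    rw [h3]
    exact ge1_mul (gd 0 _ (hgb i hi)) gs1
  have hbne : b ≠ 0 := hb0
  have k1 : J s y z = -b • dfr J Z 1 := by rw [e1, smul_smul]; simp [hbne]
  have k2 : J s x z = b • dfr J Z 2 := by rw [e2, smul_smul]; simp [hbne]
  have k3 : J s x y = -b • dfr J Z 3 := by rw [e3, smul_smul]; simp [hbne]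
  have m1 : u.Ge 1 (J c0 y z s) := by
    rw [l1 hJ, k1]
    exact u.ge_neg (ge1_mul (u.ge_neg gb) (hdc 1 (by decide)))
  have m2 : u.Ge 1 (J c0 x z s) := by
    rw [l1 hJ, k2]
    exact u.ge_neg (ge1_mul gb (hdc 2 (by decide)))
  have m3 : u.Ge 1 (J c0 x y s) := by
    rw [l1 hJ, k3]
    exact u.ge_neg (ge1_mul (u.ge_neg gb) (hdc 3 (by decide)))
  obtain ⟨t, ht⟩ := hCL K R ξ J a hC u hu s hs0 hus ![x, y, z]
    (by intro i; fin_cases i; exacts [gx, gy, gz]) (by rw [← hb] at hb0; exact hb0)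
    (by rw [← hb] at hbu; exact hbu) c0 (ga 0) (by
      intro i k
      have hsw : ∀ p q, u.Ge 1 (J c0 p q s) → u.Ge 1 (J c0 q p s) := by
        intro p q hpq
        rw [hJ.s3 c0 p q]
        exact u.ge_neg hpq
      have hz : ∀ p, u.Ge 1 (J c0 p p s) := by
        intro p
        rw [z23 hJ]
        exact Or.inl rfl
      fin_cases i <;> fin_cases k
      exacts [hz x, m3, m2, hsw _ _ m3, hz y, m1, hsw _ _ m2, hsw _ _ m1, hz z])
  refine ⟨t, fun D gD => ?_⟩
  have h1 : α D = D s * c0 + (D x * α (dfr J Z 1) + D y * α (dfr J Z 2) +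
      D z * α (dfr J Z 3)) := by
    conv_lhs => rw [dfr_sum hJ hC.trdeg hZ0 D]
    rw [map_sum, Fin.sum_univ_four]
    simp only [map_smul, smul_eq_mul, hZ, Matrix.cons_val]
    rw [← hZ]
    ring
  have h2 : (α D - algebraMap ℂ K t * D s) / s = D s * ((c0 - algebraMap ℂ K t) / s) +
      (D x * (dfr J Z 0 (α (dfr J Z 1)) - dfr J Z 1 c0) +
       D y * (dfr J Z 0 (α (dfr J Z 2)) - dfr J Z 2 c0) +
       D z * (dfr J Z 0 (α (dfr J Z 3)) - dfr J Z 3 c0)) := by
    have i1 := hai 1 (by decide)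
    have i2 := hai 2 (by decide)
    have i3 := hai 3 (by decide)
    rw [h1, div_eq_iff hs0]
    have i4 : (c0 - algebraMap ℂ K t) / s * s = c0 - algebraMap ℂ K t :=
      div_mul_cancel₀ _ hs0
    linear_combination D x * i1 + D y * i2 + D z * i3 - D s * i4
  rw [h2]
  have h3 : u.Ge 0 ((c0 - algebraMap ℂ K t) / s) := by
    have := u.ge_div ht hs0
    rwa [hus, sub_self] at this
  exact u.ge_add (ge0_mul (gD s hsR) h3) (u.ge_add (u.ge_add
    (ge0_mul (gD x hx) (hgb 1 (by decide))) (ge0_mul (gD y hy) (hgb 2 (by decide))))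
    (ge0_mul (gD z hz) (hgb 3 (by decide))))

/-! ## the front of case A -/

theorem eta_closed (hA : Al R ξ H χ α) (j : Fin r) (hs0 : α (H j) ≠ 0)
    (A B : Derivation ℂ K K) : dOne ((α (H j))⁻¹ • α) A B = 0 := by
  have h1 := dOne_s hA j A B
  generalize α (H j) = s at *
  rw [dOne] at h1 ⊢
  simp only [LinearMap.smul_apply, smul_eq_mul]
  have e : ∀ (D : Derivation ℂ K K) (x : K), D (s⁻¹ * x) = (s * D x - x * D s) / s ^ 2 := by
    intro D x
    rw [mul_comm, ← div_eq_mul_inv, quot D x s hs0]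
  rw [e, e]
  field_simp
  linear_combination h1

/-- **The front of case A.** -/
theorem front (hT0 : S_T0) (hLD : S_LDpd) (hUN : S_UN) (hCL : S_CL) (hREG : S_REG)
    {v : RVal K} {V : ℝ} (hC : Cone4 R ξ J a) (hM : IsMin R ξ J v a V) (hT : Tor R ξ H c)
    (hA : Al R ξ H χ α) (hk : ∑ i, c i * χ i ≠ 0) (j : Fin r) (hj : α (H j) ≠ 0)
    (hlt : 2 * ∑ i, c i * χ i < a) :
    ∃ (s : K) (η : Pool.Agent.Helper88.D4.One K) (e : RVal K → ℂ), s ∈ R ∧ s ≠ 0 ∧
      IsW H χ s ∧ 0 < ∑ i, c i * χ i ∧ (∀ u, PDiv R u → u.val s = 0 ∨ u.val s = 1) ∧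
      (∀ A B, dOne η A B = 0) ∧ (∀ i D, H i (η D) = η ⁅H i, D⁆) ∧ (∀ i, Cst (η (H i))) ∧
      η ξ = 0 ∧ η (H j) ≠ 0 ∧
      (∀ u, PDiv R u → ∀ D, Pres R D → u.Ge 0 (η D - e u • (D s / s))) ∧
      ∀ u u' : RVal K, (∀ y, y ≠ 0 → u'.val y = u.val y) → e u = e u' := by
  classical
  have hsR : α (H j) ∈ R := hA.reg _ (tor_pres hT j)
  have hW := isW_s hT hA j
  have hk0 : 0 < ∑ i, c i * χ i :=
    lt_of_le_of_ne (eig_nonneg hC.toIsCone hsR hj (xi_of_isW hT hW)) (Ne.symm hk)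
  have hred : ∀ u, PDiv R u → u.val (α (H j)) = 0 ∨ u.val (α (H j)) = 1 := by
    intro u hu
    have h1 := (hT0 K R ξ J v a V hC hM u 1 hu.nonneg (hLD K R ξ J a hC u hu)).2 _ _ hsR hj
      (xi_of_isW hT hW)
    obtain ⟨n, hn⟩ := hu.int _ hj
    have h2 := hu.nonneg _ hsR hj
    rw [hn] at h1 h2 ⊢
    have h3 : 0 ≤ n := by exact_mod_cast h2
    have h4 : a * n < a * 2 := by linarith
    have h5 : (n : ℝ) < 2 := lt_of_mul_lt_mul_left h4 hM.apos.le
    have h6 : n < 2 := by exact_mod_cast h5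
    have h7 : n = 0 ∨ n = 1 := by omega
    rcases h7 with h7 | h7
    · left; rw [h7, Int.cast_zero]
    · right; rw [h7, Int.cast_one]
  set P : RVal K → ℂ → Prop := fun u t => ∀ D : Derivation ℂ K K, (∀ w ∈ R, u.Ge 0 (D w)) →
    u.Ge 0 ((α D - algebraMap ℂ K t * D (α (H j))) / α (H j)) with hP
  have he : ∀ u, PDiv R u → u.val (α (H j)) = 1 → P u (Classical.epsilon (P u)) :=
    fun u hu hs => Classical.epsilon_spec (residue hUN hCL hREG hC hT hu hA j hj hs)
  have hPP : ∀ u u' : RVal K, (∀ y, y ≠ 0 → u'.val y = u.val y) → P u = P u' := by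
    intro u u' h
    have hge : ∀ x, u.Ge 0 x ↔ u'.Ge 0 x := by
      intro x
      by_cases hx : x = 0
      · exact ⟨fun _ => Or.inl hx, fun _ => Or.inl hx⟩
      · rw [RVal.Ge, RVal.Ge, h x hx]
    funext t
    simp only [hP, hge]
  have hap : ∀ D, ((α (H j))⁻¹ • α) D = α D / α (H j) := by
    intro D
    rw [LinearMap.smul_apply, smul_eq_mul, div_eq_mul_inv, mul_comm]
  refine ⟨α (H j), (α (H j))⁻¹ • α, fun u => Classical.epsilon (P u), hsR, hj, hW, hk0, hred,
    eta_closed hA j hj, ?_, ?_, ?_, ?_, ?_, fun u u' h =>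
      congrArg Classical.epsilon (hPP u u' h)⟩
  · intro i D
    rw [hap, hap, quot _ _ _ hj, hW i]
    have h4 : H i (α D) = (χ i : ℂ) • α D + α ⁅H i, D⁆ := by linear_combination hA.wt i D
    rw [h4]
    simp only [Algebra.smul_def]
    field_simp
    ring
  · intro i
    rw [hap]
    exact quot_cst hC hT hA j hj i
  · rw [hap, hA.xi, zero_div]
  · rw [hap, div_self hj]
    exact one_ne_zero
  · intro u hu D hD
    change u.Ge 0 (((α (H j))⁻¹ • α) D - Classical.epsilon (P u) • (D (α (H j)) / α (H j)))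
    generalize hte : Classical.epsilon (P u) = t
    have h0 : ((α (H j))⁻¹ • α) D - t • (D (α (H j)) / α (H j)) =
        (α D - algebraMap ℂ K t * D (α (H j))) / α (H j) := by
      rw [hap, Algebra.smul_def]
      ring
    rw [h0]
    rcases hred u hu with h1 | h1
    · have gt : u.Ge 0 (algebraMap ℂ K t) := by
        by_cases ht0 : t = 0
        · rw [ht0, map_zero]
          exact Or.inl rfl
        · exact Or.inr (by rw [u.map_const _ ht0])
      have g3 := u.ge_div (u.ge_sub (ge0_of_mem hu (hA.reg D hD))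
        (ge0_mul gt (ge0_of_mem hu (hD _ hsR)))) hj
      rwa [h1, sub_zero] at g3
    · have h2 := he u hu h1
      rw [hte] at h2
      exact h2 D fun w hw => ge0_of_mem hu (hD w hw)

end Pool.Agent.Helper94.D4
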